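import Pool.Agent.H97.HD2

open Filter Topology

namespace Pool.Agent.Results.MP_f7c330_an.No

theorem result : ∃ (X : Type) (_ : AddCommGroup X) (_ : Module ℂ X) (_ : Module ℝ X)
    (_ : IsScalarTower ℝ ℂ X) (_ : UniformSpace X) (_ : IsUniformAddGroup X)
    (_ : ContinuousSMul ℂ X) (T : ℂ → X →L[ℂ] X),
    LocallyConvexSpace ℝ X ∧ CompleteSpace X ∧ TopologicalSpace.MetrizableSpace X ∧
    T 0 = ContinuousLinearMap.id ℂ X ∧ (∀ z w, T (z + w) = (T z).comp (T w)) ∧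
    (∀ x, Continuous fun z => T z x) ∧
    (∀ x z, ∃ v, Tendsto (fun h : ℂ => h⁻¹ • (T (z + h) x - T z x)) (𝓝[≠] 0) (𝓝 v)) ∧
    (∀ a z : ℂ, a ≠ 0 → z ≠ 0 → ∃ y, Dense (Set.range fun n : ℕ => (a • T z)^[n] y)) ∧
    ¬ ∃ y, ∀ a z : ℂ, a ≠ 0 → z ≠ 0 → Dense (Set.range fun n : ℕ => (a • T z)^[n] y) := by
  refine ⟨H97.HD.X, inferInstance, inferInstance, inferInstance, inferInstance, inferInstance,
    H97.HD.X.toAddSubgroup.isUniformAddGroup, inferInstance, H97.HD.T, ?_,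
    inferInstance, inferInstance, H97.HD.T_zero, H97.HD.T_add, fun x => ?_, fun x => ?_,
    fun _ _ => H97.HD.hyper, fun ⟨y, hy⟩ => H97.HD.no_common y hy⟩
  · exact Topology.IsInducing.locallyConvexSpace (f := H97.HD.X.subtype.restrictScalars ℝ)
      .subtypeVal
  · exact H97.HD.contX (g := fun z => H97.HD.T z x) (H97.HD.T_diff x)
  · exact H97.HD.slopeX (g := fun z => H97.HD.T z x) (H97.HD.T_diff x)

end Pool.Agent.Results.MP_f7c330_an.No
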